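import Mathlib
import Pool.Agent.Helper766.Rad.Upper

set_option autoImplicit false

namespace Pool.Agent.Results.MP_bb0bb6_co.MinRadon

/-- The unordered pair `p` is a Radon partition in `S`: `p = {A, B}` with `A`, `B` disjoint finite
subsets of `S` whose convex hulls meet. -/
def RadonIn {d : ℕ} (S : Finset (Fin d → ℝ)) (p : Sym2 (Finset (Fin d → ℝ))) : Prop :=
  ∃ A B : Finset (Fin d → ℝ), p = s(A, B) ∧ A ⊆ S ∧ B ⊆ S ∧ Disjoint A B ∧
    (convexHull ℝ (A : Set (Fin d → ℝ)) ∩ convexHull ℝ (B : Set (Fin d → ℝ))).Nonempty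

/-- `p = {A, B}` extends `q = {A', B'}`: `A' ⊆ A` and `B' ⊆ B` for suitable labellings. -/
def Extends {d : ℕ} (p q : Sym2 (Finset (Fin d → ℝ))) : Prop :=
  ∃ A B A' B' : Finset (Fin d → ℝ), p = s(A, B) ∧ q = s(A', B') ∧ A' ⊆ A ∧ B' ⊆ B

/-- `p` is a primitive Radon partition in `S`: it extends no Radon partition in `S` other than
itself. -/
def Primitive {d : ℕ} (S : Finset (Fin d → ℝ)) (p : Sym2 (Finset (Fin d → ℝ))) : Prop :=
  RadonIn S p ∧ ∀ q, RadonIn S q → Extends p q → q = p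

/-- `π(S)`, the number of primitive Radon partitions in `S`. -/
noncomputable def numPrimitive {d : ℕ} (S : Finset (Fin d → ℝ)) : ℕ :=
  {p | Primitive S p}.ncard

/-- `balanced k n` is the sum of the binomial coefficients `C(n_i, 3)` for the partition
`n = n_1 + ... + n_k` of `n` into `k` parts which differ by at most one. -/
def balanced (k n : ℕ) : ℕ :=
  (k - n % k) * (n / k).choose 3 + (n % k) * (n / k + 1).choose 3

/-- `discount i = max (i - 3) 0`, except `discount 5 = 3`. -/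
def discount (i : ℕ) : ℕ := (i - 3) + (if i = 5 then 1 else 0)

/-- The minimum `m(d, s)`. For `d = 2k - 1` it is `balanced k s`; for `d = 2k` it is
`balanced k (s - 1)` minus `discount ⌈(s - 1) / k⌉`. -/
def minRadon (d s : ℕ) : ℕ :=
  if d % 2 = 1 then balanced ((d + 1) / 2) s
  else balanced (d / 2) (s - 1) - discount ((s - 1 + (d / 2 - 1)) / (d / 2))

/-- Sanity: the set of primitive Radon partitions in `S` is finite. -/
theorem finite_primitive {d : ℕ} (S : Finset (Fin d → ℝ)) : {p | Primitive S p}.Finite := by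
  apply Set.Finite.subset (((S.powerset ×ˢ S.powerset).image
    (fun x => s(x.1, x.2))).finite_toSet)
  rintro p ⟨⟨A, B, rfl, hA, hB, -, -⟩, -⟩
  simp only [Finset.coe_image, Set.mem_image]
  exact ⟨(A, B), by simp [hA, hB], rfl⟩

/-- Sanity: some values of the formula. -/
theorem values : minRadon 1 3 = 1 ∧ minRadon 1 7 = 35 ∧ minRadon 2 4 = 1 ∧ minRadon 2 5 = 3 ∧
    minRadon 2 6 = 7 ∧ minRadon 2 7 = 17 ∧ minRadon 2 8 = 31 ∧ minRadon 3 5 = 1 ∧
    minRadon 3 6 = 2 ∧ minRadon 3 9 = 14 ∧ minRadon 4 10 = 11 := by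
  decide

/-- For all `d ≥ 1` and `s ≥ d + 2`, `minRadon d s` is the minimum of the number of primitive
Radon partitions over all `s`-point subsets of `ℝ^d`. -/
theorem result (d s : ℕ) (hd : 1 ≤ d) (hs : d + 2 ≤ s) :
    IsLeast {k | ∃ S : Finset (Fin d → ℝ), S.card = s ∧ numPrimitive S = k} (minRadon d s) :=
  Pool.Agent.Helper766.Rad.main hd hs

end Pool.Agent.Results.MP_bb0bb6_co.MinRadon
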